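import Pool.Agent.H37Z.SabMain

set_option autoImplicit false

namespace Pool.Agent.Results.MP_08a7ad_al.Schreier

open SabDeg

universe u

/-- For every `d`, the variety of degree `d` Sabinin algebras over a field of characteristic `0`
is Schreier: every subalgebra `U` of a free algebra `A`, with its induced structure `B`, is free. -/
theorem result (F : Type u) [Field F] [CharZero F] (d : ℕ)
    (V : Type u) [AddCommGroup V] [Module F V] (A : Alg F d V) (X : Set V) (hA : IsFreeOn A X)
    (U : Submodule F V) (hU : IsSubalgebra A U) :
    ∃ B : Alg F d U, IsHom B A U.subtype ∧ ∃ Y : Set U, IsFreeOn B Y :=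
  schreier A hA U hU

end Pool.Agent.Results.MP_08a7ad_al.Schreier
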